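import Pool.Agent.J6H6.NT.Main

/-!
# Graded rings and monoid algebras
-/

set_option autoImplicit false

namespace Pool.Agent.J6H6.NT

open Pool.Agent.Y110.FJ (ClosedE)
open Pool.Agent.J6H75.BT
open Pool.Agent.J6H6.RP (ResP BR UQ qm qm_eq_zero)
open Pool.Agent.N506.EX (RAAG)

variable {C : ∀ (G : Type) [Group G], Prop}

section graded

variable {A : Type} [Ring A] (𝒜 : ℕ → AddSubgroup A) [GradedRing 𝒜] {E : Type} [Ring E]
  (j : A →+* E)

/-- The components as coefficients. -/
noncomputable def gth : A →+* Polynomial E :=
  (DirectSum.toSemiring (A := fun n => 𝒜 n) (fun n => (Polynomial.monomial n).toAddMonoidHom.comp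
    (j.toAddMonoidHom.comp (𝒜 n).subtype)) (by
      change Polynomial.monomial 0 (j ((1 : 𝒜 0) : A)) = 1
      rw [SetLike.GradeZero.coe_one, map_one]
      rfl) (by
      intro m n a b
      change Polynomial.monomial (m + n) (j ((a : A) * (b : A))) =
        Polynomial.monomial m (j a) * Polynomial.monomial n (j b)
      rw [Polynomial.monomial_mul_monomial, map_mul])).comp
    (DirectSum.decomposeRingEquiv 𝒜).toRingHom

theorem gth_mem {n : ℕ} {a : A} (ha : a ∈ 𝒜 n) : gth 𝒜 j a = Polynomial.monomial n (j a) := by
  have h : gth 𝒜 j a = DirectSum.toAddMonoid (fun n =>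
      (Polynomial.monomial n).toAddMonoidHom.comp (j.toAddMonoidHom.comp (𝒜 n).subtype))
      (DirectSum.decompose 𝒜 a) := rfl
  rw [h, DirectSum.decompose_of_mem 𝒜 ha, DirectSum.toAddMonoid_of]
  rfl

theorem gth_eval (a : A) : (gth 𝒜 j a).eval 1 = j a := by
  induction a using DirectSum.Decomposition.inductionOn 𝒜 with
  | zero => rw [map_zero, map_zero, Polynomial.eval_zero]
  | homogeneous a =>
    rw [gth_mem 𝒜 j a.2, Polynomial.eval_monomial, one_pow, mul_one]
  | add a b ha hb => rw [map_add, map_add, Polynomial.eval_add, ha, hb]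

theorem gth_coeff (a : A) :
    (gth 𝒜 j a).coeff 0 = j ((GradedRing.projZeroRingHom' 𝒜 a : 𝒜 0) : A) := by
  induction a using DirectSum.Decomposition.inductionOn 𝒜 with
  | zero => rw [map_zero, map_zero, Polynomial.coeff_zero, ZeroMemClass.coe_zero, map_zero]
  | @homogeneous n a =>
    rw [gth_mem 𝒜 j a.2, Polynomial.coeff_monomial]
    change _ = j (DirectSum.decompose 𝒜 (a : A) 0 : A)
    by_cases hn : n = 0
    · subst hn
      rw [if_pos rfl, DirectSum.decompose_of_mem_same 𝒜 a.2]
    · rw [if_neg hn, DirectSum.decompose_of_mem_ne 𝒜 a.2 hn, map_zero]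
  | add a b ha hb =>
    rw [map_add, map_add, Polynomial.coeff_add, ha, hb, AddMemClass.coe_add, map_add]

end graded

/-- **Graded rings which embed in division rings.** -/
theorem graded_crit (hC : ClosedE C) (hsol : ∀ (S : Type) [Group S], Group.IsSolvable S → C S)
    {A : Type} [Ring A] (𝒜 : ℕ → AddSubgroup A) [GradedRing 𝒜] {E : Type} [DivisionRing E]
    (j : A →+* E) (hj : Function.Injective j) (h : C (GL2 (𝒜 0))) : C (GL2 A) := by
  refine poly_crit (gth 𝒜 j) hC hsol ?_ (GradedRing.projZeroRingHom' 𝒜) ?_ h
  · intro a b hab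
    apply hj
    rw [← gth_eval 𝒜 j a, ← gth_eval 𝒜 j b, hab]
  · intro a
    rw [gth_coeff, map_eq_zero_iff j hj, ZeroMemClass.coe_eq_zero]

section mono

variable {R M E : Type} [Ring R] [Monoid M] [DivisionRing E] (ρ : MonoidAlgebra R M →+* E)
  (χ : M →* Multiplicative ℕ)

/-- `m ↦ ρ(m) X ^ χ(m)` -/
noncomputable def mth : MonoidAlgebra R M →+* Polynomial E :=
  MonoidAlgebra.liftNCRingHom (Polynomial.C.comp (ρ.comp MonoidAlgebra.singleOneRingHom))
    { toFun := fun m => Polynomial.monomial (χ m).toAdd (ρ (MonoidAlgebra.single m 1))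
      map_one' := by
        rw [map_one]
        change Polynomial.monomial 0 (ρ 1) = 1
        rw [map_one]
        rfl
      map_mul' := fun a b => by
        rw [Polynomial.monomial_mul_monomial, ← map_mul, MonoidAlgebra.single_mul_single, one_mul,
          map_mul χ, toAdd_mul] } (by
      intro r m
      change Polynomial.C (ρ (MonoidAlgebra.single 1 r)) * Polynomial.monomial _ _ =
        Polynomial.monomial _ _ * Polynomial.C (ρ (MonoidAlgebra.single 1 r))
      rw [Polynomial.C_mul_monomial, Polynomial.monomial_mul_C, ← map_mul, ← map_mul,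
        MonoidAlgebra.single_mul_single, MonoidAlgebra.single_mul_single]
      simp)

theorem mth_single (m : M) (r : R) : mth ρ χ (MonoidAlgebra.single m r) =
    Polynomial.monomial (χ m).toAdd (ρ (MonoidAlgebra.single m r)) := by
  have h : mth ρ χ (MonoidAlgebra.single m r) = Polynomial.C (ρ (MonoidAlgebra.single 1 r)) *
      Polynomial.monomial (χ m).toAdd (ρ (MonoidAlgebra.single m 1)) :=
    MonoidAlgebra.liftNC_single _ _ _ _
  rw [h, Polynomial.C_mul_monomial, ← map_mul, MonoidAlgebra.single_mul_single, one_mul, mul_one]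

theorem mth_eval (a : MonoidAlgebra R M) : (mth ρ χ a).eval 1 = ρ a := by
  induction a using MonoidAlgebra.induction_linear with
  | zero => rw [map_zero, map_zero, Polynomial.eval_zero]
  | single m r => rw [mth_single, Polynomial.eval_monomial, one_pow, mul_one]
  | add a b ha hb => rw [map_add, map_add, Polynomial.eval_add, ha, hb]

open Classical in
/-- The projection to the algebra of the kernel. -/
noncomputable def mpi : MonoidAlgebra R M →+* MonoidAlgebra R (MonoidHom.mker χ) :=
  MonoidAlgebra.liftNCRingHom MonoidAlgebra.singleOneRingHom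
    { toFun := fun m => if h : m ∈ MonoidHom.mker χ then
        MonoidAlgebra.single (⟨m, h⟩ : MonoidHom.mker χ) 1 else 0
      map_one' := by
        rw [dif_pos (one_mem _)]
        rfl
      map_mul' := fun a b => by
        by_cases ha : a ∈ MonoidHom.mker χ
        · by_cases hb : b ∈ MonoidHom.mker χ
          · rw [dif_pos ha, dif_pos hb, dif_pos (mul_mem ha hb), MonoidAlgebra.single_mul_single,
              one_mul]
            rfl
          · rw [dif_neg hb, mul_zero, dif_neg]
            intro h
            apply hb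
            have h1 : χ (a * b) = 1 := h
            rw [map_mul, show χ a = 1 from ha, one_mul] at h1
            exact h1
        · rw [dif_neg ha, zero_mul, dif_neg]
          intro h
          apply ha
          have h1 : (χ (a * b)).toAdd = 0 := by
            rw [show χ (a * b) = 1 from h]
            rfl
          rw [map_mul, toAdd_mul] at h1
          change χ a = 1
          apply Multiplicative.toAdd.injective
          change (χ a).toAdd = 0
          omega } (by
      intro r m
      change MonoidAlgebra.single 1 r * (dite _ _ _) = (dite _ _ _) * MonoidAlgebra.single 1 r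
      by_cases h : m ∈ MonoidHom.mker χ
      · rw [dif_pos h, MonoidAlgebra.single_mul_single, MonoidAlgebra.single_mul_single]
        simp
      · rw [dif_neg h, mul_zero, zero_mul])

theorem mpi_single (m : M) (r : R) (h : m ∈ MonoidHom.mker χ) :
    mpi χ (MonoidAlgebra.single m r) = MonoidAlgebra.single (⟨m, h⟩ : MonoidHom.mker χ) r := by
  have h1 : mpi χ (MonoidAlgebra.single m r) = MonoidAlgebra.single 1 r *
      (if h : m ∈ MonoidHom.mker χ then
        MonoidAlgebra.single (⟨m, h⟩ : MonoidHom.mker χ) 1 else 0) :=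
    MonoidAlgebra.liftNC_single _ _ _ _
  rw [h1, dif_pos h, MonoidAlgebra.single_mul_single, one_mul, mul_one]

theorem mpi_single' (m : M) (r : R) (h : m ∉ MonoidHom.mker χ) :
    mpi χ (MonoidAlgebra.single m r) = 0 := by
  have h1 : mpi χ (MonoidAlgebra.single m r) = MonoidAlgebra.single 1 r *
      (if h : m ∈ MonoidHom.mker χ then
        MonoidAlgebra.single (⟨m, h⟩ : MonoidHom.mker χ) 1 else 0) :=
    MonoidAlgebra.liftNC_single _ _ _ _
  rw [h1, dif_neg h, mul_zero]

/-- The inclusion. -/
noncomputable def mio : MonoidAlgebra R (MonoidHom.mker χ) →+* MonoidAlgebra R M :=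
  MonoidAlgebra.mapDomainRingHom R (MonoidHom.mker χ).subtype

theorem mio_injective : Function.Injective (mio (R := R) χ) :=
  MonoidAlgebra.mapDomain_injective (MonoidHom.mker χ).subtype_injective

theorem mth_coeff (a : MonoidAlgebra R M) : (mth ρ χ a).coeff 0 = ρ (mio χ (mpi χ a)) := by
  induction a using MonoidAlgebra.induction_linear with
  | zero => rw [map_zero, map_zero, map_zero, map_zero, Polynomial.coeff_zero]
  | single m r =>
    rw [mth_single, Polynomial.coeff_monomial]
    by_cases h : m ∈ MonoidHom.mker χ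
    · rw [mpi_single χ m r h, if_pos (by rw [show χ m = 1 from h]; rfl)]
      have h2 : mio χ (MonoidAlgebra.single (⟨m, h⟩ : MonoidHom.mker χ) r) =
          MonoidAlgebra.single m r := MonoidAlgebra.mapDomain_single
      rw [h2]
    · rw [mpi_single' χ m r h, map_zero, map_zero, if_neg]
      intro h1
      apply h
      exact Multiplicative.toAdd.injective h1
  | add a b ha hb =>
    rw [map_add, map_add, map_add, map_add, Polynomial.coeff_add, ha, hb]

/-- **Monoid algebras.** -/
theorem monoid_crit (hC : ClosedE C) (hsol : ∀ (S : Type) [Group S], Group.IsSolvable S → C S)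
    (hρ : Function.Injective ρ) (h : C (GL2 (MonoidAlgebra R (MonoidHom.mker χ)))) :
    C (GL2 (MonoidAlgebra R M)) := by
  refine poly_crit (mth ρ χ) hC hsol ?_ (mpi χ) ?_ h
  · intro a b hab
    apply hρ
    rw [← mth_eval ρ χ a, ← mth_eval ρ χ b, hab]
  · intro a
    rw [mth_coeff, map_eq_zero_iff ρ hρ, map_eq_zero_iff (mio χ) (mio_injective χ)]

end mono

end Pool.Agent.J6H6.NT
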