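import Pool.Agent.J6H6.NT.Poly

/-!
# `GL₂` over subrings of polynomial rings over division rings
-/

set_option autoImplicit false

namespace Pool.Agent.J6H6.NT

open Pool.Agent.Y110.FJ (ClosedE)
open Pool.Agent.J6H75.BT

variable {C : ∀ (G : Type) [Group G], Prop}

section

variable {A : Type} [Ring A] {E : Type} [DivisionRing E] (θ : A →+* Polynomial E)

/-- The elements divisible by `X ^ (n + 1)`. -/
def JT (n : ℕ) : Ideal A where
  carrier := {a | ∀ k ≤ n, (θ a).coeff k = 0}
  zero_mem' := by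
    intro k _
    rw [map_zero, Polynomial.coeff_zero]
  add_mem' := by
    intro a b ha hb k hk
    rw [map_add, Polynomial.coeff_add, ha k hk, hb k hk, add_zero]
  smul_mem' := by
    intro c a ha k hk
    rw [smul_eq_mul, map_mul, Polynomial.coeff_mul]
    refine Finset.sum_eq_zero fun x hx => ?_
    have hx := Finset.HasAntidiagonal.mem_antidiagonal.1 hx
    rw [ha x.2 (by omega), mul_zero]

theorem mem_JT {n : ℕ} {a : A} : a ∈ JT θ n ↔ ∀ k ≤ n, (θ a).coeff k = 0 := Iff.rfl

theorem inv_JT (n : ℕ) : Inv (1 : PUnit →* (A ≃+* A)) (JT θ n) := by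
  refine ⟨fun a ha b k hk => ?_, fun _ _ ha => ha⟩
  rw [map_mul, Polynomial.coeff_mul]
  refine Finset.sum_eq_zero fun x hx => ?_
  have hx := Finset.HasAntidiagonal.mem_antidiagonal.1 hx
  rw [ha x.1 (by omega), zero_mul]

theorem JT_mul {n : ℕ} {a b : A} (ha : a ∈ JT θ n) (hb : b ∈ JT θ n) : a * b ∈ JT θ (n + 1) := by
  intro k hk
  rw [map_mul, Polynomial.coeff_mul]
  refine Finset.sum_eq_zero fun x hx => ?_
  have hx := Finset.HasAntidiagonal.mem_antidiagonal.1 hx
  by_cases h : x.1 ≤ n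
  · rw [ha x.1 h, zero_mul]
  · rw [hb x.2 (by omega), mul_zero]

theorem JT_anti : Antitone (JT θ) := fun _ _ h _ ha k hk => ha k (hk.trans h)

theorem JT_deg {n : ℕ} {a : A} (ha : a ∈ JT θ n) (h0 : θ a ≠ 0) : n < (θ a).natDegree := by
  by_contra h
  exact Polynomial.leadingCoeff_ne_zero.2 h0 (ha _ (not_lt.1 h))

/-- **Subrings of polynomial rings over division rings.** -/
theorem poly_crit (hC : ClosedE C) (hsol : ∀ (S : Type) [Group S], Group.IsSolvable S → C S)
    (hθ : Function.Injective θ) {B : Type} [Ring B] (π : A →+* B)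
    (hπ : ∀ a, π a = 0 ↔ (θ a).coeff 0 = 0) (h : C (GL2 B)) : C (GL2 A) := by
  obtain ⟨D, _, V, j, hj⟩ := exists_polyDV E
  refine of_triv hC (ring_crit (sD := (1 : PUnit →* (D ≃+* D))) hC V (j.comp θ)
    (fun _ _ => rfl) (fun _ _ => rfl) ?_ ?_)
  · intro a ha
    have h1 : θ a ≠ 0 := fun h => ha (hθ (by rw [h, map_zero]))
    obtain ⟨h2, h3⟩ := hj (θ a) h1
    refine ⟨h2, ?_⟩
    change V.v (j (θ a)) ≤ 0
    rw [h3]
    omega
  · intro n
    have hn := Kc_normal (s := (1 : PUnit →* (A ≃+* A))) (JT θ n) (inv_JT θ n)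
    refine ⟨JT θ n, inv_JT θ n, GaL (1 : PUnit →* (A ≃+* A)) ⧸ Kc _ (JT θ n) (inv_JT θ n),
      inferInstance, QuotientGroup.mk' _, ?_, ?_, ?_⟩
    · refine chain hC hsol (to_triv hC h) (gaMap _ _ π (fun _ _ => rfl))
        (fun n => Kc _ (JT θ n) (inv_JT θ n)) (fun i => Kc_normal _ _) ?_ ?_ ?_ n
      · refine gaMap_ker _ _ _ _ _ _ fun a => ?_
        rw [hπ, mem_JT]
        constructor
        · intro h k hk
          rw [Nat.le_zero.1 hk]
          exact h
        · intro h
          exact h 0 le_rfl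
      · intro i k hik
        exact Kc_mono (JT_anti θ hik)
      · intro i
        exact Kc_comm _ _ fun a ha b hb => JT_mul θ ha hb
    · rw [QuotientGroup.ker_mk']
    · intro a ha h0
      have h1 : θ a ≠ 0 := fun h => h0 (hθ (by rw [h, map_zero]))
      obtain ⟨h2, h3⟩ := hj (θ a) h1
      change V.v (j (θ a)) < _
      rw [h3]
      have := JT_deg θ ha h1
      omega

end

end Pool.Agent.J6H6.NT
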