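import Pool.Agent.J6H6.NT.Gr

/-!
# Monoid algebras and free algebras
-/

set_option autoImplicit false

namespace Pool.Agent.J6H6.NT

open Pool.Agent.Y110.FJ (ClosedE)
open Pool.Agent.J6H75.BT (GL2 glMap glMap_injective of_inj)
open Pool.Agent.J6H6.RP
open Pool.Agent.N506.EX

variable {C : ∀ (G : Type) [Group G], Prop}

/-- The group algebra of a residually poly-(torsion-free abelian) group embeds in a division
ring. -/
theorem embE {G : Type} [Group G] (h : ResP G) (K : Type) [Field K] :
    ∃ (E : Type) (_ : DivisionRing E) (f : MonoidAlgebra K G →+* E), Function.Injective f := by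
  classical
  choose P instP π hP hinj using h.inj
  let p : ∀ F, P F × ULift.{0} (Multiplicative ℤ) →* Multiplicative ℤ := fun F =>
    (MulEquiv.ulift.toMonoidHom).comp (MonoidHom.snd (P F) (ULift.{0} (Multiplicative ℤ)))
  let ψ : ∀ F, G →* P F × ULift.{0} (Multiplicative ℤ) := fun F => (π F).prod 1
  have hpψ : ∀ F g, p F (ψ F g) = 1 := fun F g => rfl
  choose E instE V j hj using fun F : Finset G => exists_dv K
    ((hP F).prod (PolyTFA.comm (ULift.{0} (Multiplicative ℤ)))) (p F)
    (1, ULift.up (Multiplicative.ofAdd 1)) rfl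
  let U : Ultrafilter (Finset G) := Ultrafilter.of Filter.atTop
  let f : ∀ F, MonoidAlgebra K G →+* E F := fun F =>
    (j F).comp (MonoidAlgebra.mapDomainRingHom K (ψ F))
  have hord : ∀ F (x : MonoidAlgebra K G), MonoidAlgebra.mapDomainRingHom K (ψ F) x ≠ 0 →
      ord (p F) (MonoidAlgebra.mapDomainRingHom K (ψ F) x) = 0 := by
    intro F x h0
    obtain ⟨⟨q, hq, h1⟩, -⟩ := ord_spec (p F) h0
    have h2 := Finsupp.mapDomain_support (Finsupp.mem_support_iff.mpr hq)
    rw [Finset.mem_image] at h2
    obtain ⟨g, -, rfl⟩ := h2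
    rw [← h1]
    exact congrArg Multiplicative.toAdd (hpψ F g)
  have hf : ∀ r F, f F r ∈ (V F).O (-((0:ℕ):ℤ)) := by
    intro r F
    change j F (MonoidAlgebra.mapDomainRingHom K (ψ F) r) ∈ _
    rw [hj]
    by_cases h0 : MonoidAlgebra.mapDomainRingHom K (ψ F) r = 0
    · exact Or.inl h0
    · right
      rw [hord F r h0]
      simp
  let F0 : MonoidAlgebra K G →+* BR U V := (RingHom.pi f).codRestrict (BR U V) (fun r =>
    ⟨0, Filter.Eventually.of_forall (hf r)⟩)
  refine ⟨UQ U V, inferInstance, (qm U V).comp F0, ?_⟩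
  rw [injective_iff_map_eq_zero]
  intro x hx
  by_contra hx0
  have h1 : qm U V (F0 x) = 0 := hx
  rw [qm_eq_zero] at h1
  have h2 : ∀ᶠ F in (U : Filter (Finset G)), f F x ∈ (V F).O ((1:ℕ):ℤ) := h1 1
  have h3 : ∀ᶠ F in (U : Filter (Finset G)), x.coeff.support ≤ F :=
    (Ultrafilter.of_le Filter.atTop) (Filter.eventually_ge_atTop x.coeff.support)
  obtain ⟨F, hF1, hF2⟩ := (h2.and h3).exists
  obtain ⟨g, hg⟩ : ∃ g, x.coeff g ≠ 0 := by
    by_contra h4
    push Not at h4
    exact hx0 (MonoidAlgebra.coeff_inj.mp (Finsupp.ext h4))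
  have hinjF : Set.InjOn (ψ F) (F : Set G) := by
    intro a ha b hb hab
    exact hinj F ha hb (congrArg Prod.fst hab)
  have h5 : MonoidAlgebra.mapDomainRingHom K (ψ F) x ≠ 0 := by
    intro h5
    apply hg
    have h6 : (MonoidAlgebra.mapDomainRingHom K (ψ F) x).coeff (ψ F g) = x.coeff g :=
      Finsupp.mapDomain_apply' (F : Set G) x.coeff (fun g' hg' => hF2 hg') hinjF
        (hF2 (Finsupp.mem_support_iff.mpr hg))
    rw [← h6, h5]
    rfl
  change j F (MonoidAlgebra.mapDomainRingHom K (ψ F) x) ∈ _ at hF1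
  rw [hj] at hF1
  have h6 := hF1.resolve_left h5
  rw [hord F x h5] at h6
  norm_num at h6

/-- **Monoid algebras.** -/
theorem monoid_resP (hC : ClosedE C) (hsol : ∀ (S : Type) [Group S], Group.IsSolvable S → C S)
    (R : Type) [CommRing R] [IsDomain R] {M G : Type} [Monoid M] [Group G] (hG : ResP G)
    (i : M →* G) (hi : Function.Injective i) (χ : M →* Multiplicative ℕ)
    (h : C (GL2 (MonoidAlgebra R (MonoidHom.mker χ)))) : C (GL2 (MonoidAlgebra R M)) := by
  obtain ⟨E, _, f, hf⟩ := embE hG (FractionRing R)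
  let a : MonoidAlgebra R M →+* MonoidAlgebra (FractionRing R) M :=
    MonoidAlgebra.mapRingHom M (algebraMap R (FractionRing R))
  have ha : Function.Injective a :=
    mapRingHom_injective (algebraMap R (FractionRing R)) (IsFractionRing.injective R _)
  let b : MonoidAlgebra (FractionRing R) M →+* MonoidAlgebra (FractionRing R) G :=
    MonoidAlgebra.mapDomainRingHom (FractionRing R) i
  have hb : Function.Injective b := MonoidAlgebra.mapDomain_injective hi
  exact monoid_crit (f.comp (b.comp a)) χ hC hsol (hf.comp (hb.comp ha)) h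

/-- Free groups. -/
theorem resP_free (X : Type) : ResP (FreeGroup X) := by
  let f : FreeGroup X →* RAAG (⊥ : SimpleGraph X) :=
    PresentedGroup.mk (raagRels (⊥ : SimpleGraph X))
  have h : ∀ r ∈ raagRels (⊥ : SimpleGraph X), FreeGroup.lift (FreeGroup.of (α := X)) r = 1 := by
    rintro r ⟨v, w, hvw, -⟩
    exact absurd hvw (by simp)
  refine (ResP.raag' (⊥ : SimpleGraph X)).of_injective f ?_
  have h1 : ∀ x, PresentedGroup.toGroup h (f x) = x := by
    intro x
    change FreeGroup.lift (FreeGroup.of (α := X)) x = x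
    rw [FreeGroup.lift_of_eq_id]
    rfl
  intro x y hxy
  rw [← h1 x, ← h1 y, hxy]

/-- Positive words. -/
def pos (X : Type) : FreeMonoid X →* FreeGroup X where
  toFun L := FreeGroup.mk (L.toList.map fun x => (x, true))
  map_one' := rfl
  map_mul' a b := by
    rw [FreeMonoid.toList_mul, List.map_append, ← FreeGroup.mul_mk]

theorem pos_injective (X : Type) : Function.Injective (pos X) := by
  classical
  have h : ∀ L : List X, FreeGroup.reduce (L.map fun x => (x, true)) =
      L.map fun x => (x, true) := by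
    intro L
    induction L with
    | nil => rfl
    | cons x L ih =>
      rw [List.map_cons, FreeGroup.reduce.cons, ih]
      cases L with
      | nil => rfl
      | cons y L => simp
  intro a b hab
  have h1 := congrArg FreeGroup.toWord hab
  change (FreeGroup.mk _).toWord = (FreeGroup.mk _).toWord at h1
  rw [FreeGroup.toWord_mk, FreeGroup.toWord_mk, h, h] at h1
  apply FreeMonoid.toList.injective
  exact List.map_injective_iff.2 (fun x y hxy => congrArg Prod.fst hxy) h1

/-- The length. -/
def len (X : Type) : FreeMonoid X →* Multiplicative ℕ where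
  toFun L := Multiplicative.ofAdd L.toList.length
  map_one' := rfl
  map_mul' a b := by
    rw [FreeMonoid.toList_mul, List.length_append, ofAdd_add]

/-- **Free algebras.** -/
theorem free_alg (hC : ClosedE C) (hsol : ∀ (S : Type) [Group S], Group.IsSolvable S → C S)
    (R X : Type) [CommRing R] [IsDomain R] (h : C (GL2 R)) : C (GL2 (FreeAlgebra R X)) := by
  refine of_inj hC (FreeAlgebra.equivMonoidAlgebraFreeMonoid (R := R) (X := X)).toRingEquiv.toRingHom
    (FreeAlgebra.equivMonoidAlgebraFreeMonoid (R := R) (X := X)).injective ?_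
  refine monoid_resP hC hsol R (resP_free X) (pos X) (pos_injective X) (len X) ?_
  have hu : ∀ x : MonoidHom.mker (len X), x = 1 := by
    rintro ⟨x, hx⟩
    apply Subtype.ext
    have h1 : x.toList.length = 0 := congrArg Multiplicative.toAdd hx
    exact FreeMonoid.toList.injective (List.eq_nil_of_length_eq_zero h1)
  let _ : Unique (MonoidHom.mker (len X)) := ⟨⟨1⟩, hu⟩
  exact of_inj hC (MonoidAlgebra.uniqueRingEquiv (R := R) (M := MonoidHom.mker (len X))).toRingHom
    (RingEquiv.injective _) h

end Pool.Agent.J6H6.NT
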