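import Pool.Agent.J6H6.NT.Main

/-!
# Ore domains with a degree function
-/

set_option autoImplicit false

namespace Pool.Agent.J6H6.NT

open Pool.Agent.Y110.FJ (ClosedE)
open Pool.Agent.J6H75.BT
open Pool.Agent.N506.EX (LO vfrac vfrac_eq)

variable {C : ∀ (G : Type) [Group G], Prop}

section

variable {R : Type} [Ring R] [NoZeroDivisors R] (hLO : LO R) {E : Type} [DivisionRing E]
  (j : R →+* E) (hj : Function.Injective j) (hfrac : ∀ a : E, ∃ s r : R, s ≠ 0 ∧ j s * a = j r)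
  (w : R → ℤ) (hmul : ∀ a b, a ≠ 0 → b ≠ 0 → w (a * b) = w a + w b)
  (hadd : ∀ a b, a ≠ 0 → b ≠ 0 → a + b ≠ 0 → min (w a) (w b) ≤ w (a + b))

include hLO hj hmul in
theorem vfrac_mul {a b : E} (ha : a ≠ 0) (hb : b ≠ 0) :
    vfrac j hfrac w (a * b) = vfrac j hfrac w a + vfrac j hfrac w b := by
  have hjne : ∀ x : R, x ≠ 0 → j x ≠ 0 := fun x hx h => hx (hj (by rw [h, map_zero]))
  have hab : a * b ≠ 0 := mul_ne_zero ha hb
  obtain ⟨s, r, hs, h1⟩ := hfrac a
  obtain ⟨s', r', hs', h2⟩ := hfrac b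
  have hr : r ≠ 0 := by
    rintro rfl
    rw [map_zero] at h1
    exact (mul_ne_zero (hjne s hs) ha) h1
  have hr' : r' ≠ 0 := by
    rintro rfl
    rw [map_zero] at h2
    exact (mul_ne_zero (hjne s' hs') hb) h2
  obtain ⟨r'', s'', hs'', h3⟩ := hLO r s' hs'
  have hr'' : r'' ≠ 0 := by
    rintro rfl
    rw [zero_mul] at h3
    exact (mul_ne_zero hs'' hr) h3
  have h4 : j (s'' * s) * (a * b) = j (r'' * r') := by
    rw [map_mul, map_mul, ← h2, mul_assoc, ← mul_assoc (j s) a b, h1, ← mul_assoc,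
      ← map_mul, h3, map_mul, mul_assoc]
  rw [vfrac_eq hLO j hj hfrac w hmul hab (mul_ne_zero hs'' hs) h4,
    vfrac_eq hLO j hj hfrac w hmul ha hs h1, vfrac_eq hLO j hj hfrac w hmul hb hs' h2,
    hmul _ _ hs'' hs, hmul _ _ hr'' hr']
  have h5 := hmul _ _ hs'' hr
  have h6 := hmul _ _ hr'' hs'
  rw [h3] at h5
  omega

include hLO hj hmul hadd in
theorem vfrac_add {a b : E} (ha : a ≠ 0) (hb : b ≠ 0) (hab : a + b ≠ 0) :
    min (vfrac j hfrac w a) (vfrac j hfrac w b) ≤ vfrac j hfrac w (a + b) := by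
  have hjne : ∀ x : R, x ≠ 0 → j x ≠ 0 := fun x hx h => hx (hj (by rw [h, map_zero]))
  obtain ⟨s, r, hs, h1⟩ := hfrac a
  obtain ⟨s', r', hs', h2⟩ := hfrac b
  obtain ⟨u', u, hu, h3⟩ := hLO s s' hs'
  have hm : u * s ≠ 0 := mul_ne_zero hu hs
  have h4 : j (u * s) * a = j (u * r) := by rw [map_mul, mul_assoc, h1, map_mul]
  have h5 : j (u * s) * b = j (u' * r') := by rw [h3, map_mul, mul_assoc, h2, map_mul]
  have h6 : j (u * s) * (a + b) = j (u * r + u' * r') := by rw [mul_add, h4, h5, map_add]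
  have n1 : u * r ≠ 0 := by
    intro h
    rw [h, map_zero] at h4
    exact (mul_ne_zero (hjne _ hm) ha) h4
  have n2 : u' * r' ≠ 0 := by
    intro h
    rw [h, map_zero] at h5
    exact (mul_ne_zero (hjne _ hm) hb) h5
  have n3 : u * r + u' * r' ≠ 0 := by
    intro h
    rw [h, map_zero] at h6
    exact (mul_ne_zero (hjne _ hm) hab) h6
  rw [vfrac_eq hLO j hj hfrac w hmul ha hm h4, vfrac_eq hLO j hj hfrac w hmul hb hm h5,
    vfrac_eq hLO j hj hfrac w hmul hab hm h6]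
  have := hadd _ _ n1 n2 n3
  omega

include hLO hj hmul in
theorem vfrac_j {x : R} (hx : x ≠ 0) : vfrac j hfrac w (j x) = w x := by
  have h1 : (1 : R) ≠ 0 := by
    intro h
    apply hx
    rw [← mul_one x, h, mul_zero]
  have hx' : j x ≠ 0 := fun h => hx (hj (by rw [h, map_zero]))
  rw [vfrac_eq hLO j hj hfrac w hmul hx' h1 (r := x) (by rw [map_one, one_mul])]
  have h2 := hmul 1 1 h1 h1
  rw [mul_one] at h2
  omega

end

/-- Normalization. -/
theorem exists_norm {D : Type} [DivisionRing D] (v : D → ℤ)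
    (hmul : ∀ a b, a ≠ 0 → b ≠ 0 → v (a * b) = v a + v b)
    (hadd : ∀ a b, a ≠ 0 → b ≠ 0 → a + b ≠ 0 → min (v a) (v b) ≤ v (a + b))
    {x₀ : D} (hx₀ : x₀ ≠ 0) (hv : v x₀ ≠ 0) :
    ∃ (V : DV D) (d : ℕ), 0 < d ∧ ∀ x, x ≠ 0 → v x = d * V.v x := by
  have h1 : v 1 = 0 := by
    have h2 := hmul 1 1 one_ne_zero one_ne_zero
    rw [mul_one] at h2
    omega
  let H : AddSubgroup ℤ :=
    { carrier := {m | ∃ x, x ≠ 0 ∧ v x = m}
      zero_mem' := ⟨1, one_ne_zero, h1⟩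
      add_mem' := by
        rintro a b ⟨x, hx, rfl⟩ ⟨y, hy, rfl⟩
        exact ⟨x * y, mul_ne_zero hx hy, hmul x y hx hy⟩
      neg_mem' := by
        rintro a ⟨x, hx, rfl⟩
        refine ⟨x⁻¹, inv_ne_zero hx, ?_⟩
        have h2 := hmul x x⁻¹ hx (inv_ne_zero hx)
        rw [mul_inv_cancel₀ hx, h1] at h2
        omega }
  obtain ⟨a, ha⟩ := Int.subgroup_cyclic H
  rw [← AddSubgroup.zmultiples_eq_closure] at ha
  have hdvd : ∀ x, x ≠ 0 → (a.natAbs : ℤ) ∣ v x := by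
    intro x hx
    have h2 : v x ∈ H := ⟨x, hx, rfl⟩
    rw [ha, Int.mem_zmultiples_iff] at h2
    exact Int.natAbs_dvd.2 h2
  have ha0 : a ≠ 0 := by
    rintro rfl
    exact hv (zero_dvd_iff.1 (hdvd x₀ hx₀))
  have hd : 0 < a.natAbs := Int.natAbs_pos.2 ha0
  have hd' : (0:ℤ) < (a.natAbs : ℤ) := by exact_mod_cast hd
  obtain ⟨t, ht, hvt⟩ : ∃ x, x ≠ 0 ∧ v x = (a.natAbs : ℤ) := by
    have h2 : (a.natAbs : ℤ) ∈ H := by
      rw [ha, Int.mem_zmultiples_iff]
      exact Int.dvd_natAbs_self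
    exact h2
  refine ⟨⟨fun x => v x / a.natAbs, ?_, ?_, t, ht, ?_⟩, a.natAbs, hd, ?_⟩
  · intro x y hx hy
    rw [hmul x y hx hy, Int.add_ediv_of_dvd_left (hdvd x hx)]
  · intro x y hx hy hxy
    rcases min_le_iff.1 (hadd x y hx hy hxy) with h | h
    · exact (min_le_left _ _).trans (Int.ediv_le_ediv hd' h)
    · exact (min_le_right _ _).trans (Int.ediv_le_ediv hd' h)
  · rw [hvt]
    exact Int.ediv_self hd'.ne'
  · intro x hx
    exact (Int.mul_ediv_cancel' (hdvd x hx)).symm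

/-- **Homomorphisms which are injective in small degrees.** -/
theorem hom_crit (hC : ClosedE C) {A D : Type} [Ring A] [DivisionRing D] (V : DV D) (ι : A →+* D)
    (hneg : ∀ a, a ≠ 0 → ι a ≠ 0 ∧ V.v (ι a) ≤ 0)
    (hd : ∀ n : ℕ, ∃ (B : Type) (_ : Ring B) (f : A →+* B), C (GL2 B) ∧
      ∀ a, a ≠ 0 → f a = 0 → V.v (ι a) < -n) : C (GL2 A) := by
  refine of_triv hC (ring_crit (s := (1 : PUnit →* (A ≃+* A))) (sD := (1 : PUnit →* (D ≃+* D)))
    hC V ι (fun _ _ => rfl) (fun _ _ => rfl) hneg ?_)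
  intro n
  obtain ⟨B, _, f, hB, h1⟩ := hd n
  have hJ : Inv (1 : PUnit →* (A ≃+* A)) (RingHom.ker f) := by
    refine ⟨fun a ha b => ?_, fun _ _ ha => ha⟩
    rw [RingHom.mem_ker] at ha ⊢
    rw [map_mul, ha, zero_mul]
  refine ⟨RingHom.ker f, hJ, _, inferInstance,
    gaMap (1 : PUnit →* (A ≃+* A)) (1 : PUnit →* (B ≃+* B)) f (fun _ _ => rfl), to_triv hC hB, ?_,
    ?_⟩
  · exact (gaMap_ker _ _ _ _ (RingHom.ker f) hJ fun a => (RingHom.mem_ker).symm).le
  · intro a ha h0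
    exact h1 a h0 ha

/-- **Ore domains with a degree function.** -/
theorem ore_crit (hC : ClosedE C) {A : Type} [Ring A] [NoZeroDivisors A] [Nontrivial A]
    (hLO : LO A) {deg : A → ℕ} (hm : ∀ a b, a ≠ 0 → b ≠ 0 → deg (a * b) = deg a + deg b)
    (ha : ∀ a b, a ≠ 0 → b ≠ 0 → a + b ≠ 0 → deg (a + b) ≤ max (deg a) (deg b))
    (h : ∀ n : ℕ, ∃ (B : Type) (_ : Ring B) (f : A →+* B), C (GL2 B) ∧
      ∀ a, a ≠ 0 → deg a ≤ n → f a ≠ 0) : C (GL2 A) := by
  have hOre : Nonempty (OreLocalization.OreSet (nonZeroDivisors A)) := by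
    rw [OreLocalization.nonempty_oreSet_iff_of_noZeroDivisors]
    intro r s
    obtain ⟨r', s', hs', h1⟩ := hLO r s (nonZeroDivisors.ne_zero s.2)
    exact ⟨r', ⟨s', mem_nonZeroDivisors_of_ne_zero hs'⟩, h1⟩
  obtain ⟨inst⟩ := hOre
  let E := OreLocalization (nonZeroDivisors A) A
  let j : A →+* E := OreLocalization.numeratorRingHom
  have hj : Function.Injective j := OreLocalization.numeratorHom_inj (by
    intro x hx
    exact (mem_nonZeroDivisors_iff.mp hx).1)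
  have hfrac : ∀ a : E, ∃ s r, s ≠ 0 ∧ j s * a = j r := by
    intro a
    induction a using OreLocalization.ind with
    | _ r s =>
      refine ⟨s, r, nonZeroDivisors.ne_zero s.2, ?_⟩
      change ((s : A) /ₒ 1) * (r /ₒ s) = r /ₒ 1
      exact OreLocalization.mul_cancel
  by_cases h0 : ∃ a : A, a ≠ 0 ∧ deg a ≠ 0
  · obtain ⟨a₀, ha₀, hd₀⟩ := h0
    let w : A → ℤ := fun a => -(deg a : ℤ)
    have hwm : ∀ a b, a ≠ 0 → b ≠ 0 → w (a * b) = w a + w b := by
      intro a b ha hb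
      have := hm a b ha hb
      change -(deg (a * b) : ℤ) = -(deg a : ℤ) + -(deg b : ℤ)
      omega
    have hwa : ∀ a b, a ≠ 0 → b ≠ 0 → a + b ≠ 0 → min (w a) (w b) ≤ w (a + b) := by
      intro a b h1 h2 h3
      have := ha a b h1 h2 h3
      change min (-(deg a : ℤ)) (-(deg b : ℤ)) ≤ -(deg (a + b) : ℤ)
      omega
    have hvj : ∀ x : A, x ≠ 0 → vfrac j hfrac w (j x) = w x :=
      fun x hx => vfrac_j hLO j hj hfrac w hwm hx
    obtain ⟨V, d, hd, hV⟩ := exists_norm (D := E) (vfrac j hfrac w)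
      (fun a b ha hb => vfrac_mul hLO j hj hfrac w hwm ha hb)
      (fun a b ha hb hab => vfrac_add hLO j hj hfrac w hwm hwa ha hb hab)
      (x₀ := j a₀) (fun h => ha₀ (hj (by rw [h, map_zero]))) (by
        rw [hvj a₀ ha₀]
        change -(deg a₀ : ℤ) ≠ 0
        omega)
    have hd' : (0:ℤ) < d := by exact_mod_cast hd
    have key : ∀ a : A, a ≠ 0 → j a ≠ 0 ∧ (d : ℤ) * V.v (j a) = -(deg a : ℤ) := by
      intro a ha
      have h1 : j a ≠ 0 := fun h => ha (hj (by rw [h, map_zero]))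
      refine ⟨h1, ?_⟩
      rw [← hV _ h1, hvj a ha]
    refine hom_crit hC V j (fun a ha => ⟨(key a ha).1, ?_⟩) fun n => ?_
    · have h1 := (key a ha).2
      by_contra h2
      push Not at h2
      have h3 : 0 < (d : ℤ) * V.v (j a) := mul_pos hd' h2
      omega
    · obtain ⟨B, _, f, hB, h1⟩ := h (d * n)
      refine ⟨B, inferInstance, f, hB, fun a ha hfa => ?_⟩
      have h2 : ¬ deg a ≤ d * n := fun h2 => h1 a ha h2 hfa
      have h3 := (key a ha).2
      by_contra h4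
      push Not at h4
      have h5 : (d : ℤ) * -n ≤ d * V.v (j a) := mul_le_mul_of_nonneg_left h4 hd'.le
      rw [h3] at h5
      apply h2
      have h6 : (deg a : ℤ) ≤ d * n := by linarith
      exact_mod_cast h6
  · push Not at h0
    obtain ⟨B, _, f, hB, h1⟩ := h 0
    refine of_inj hC f ?_ hB
    rw [injective_iff_map_eq_zero]
    intro a hfa
    by_contra ha
    exact h1 a ha (h0 a ha).le hfa

/-- **Filtered algebras.** -/
theorem filt_crit (hC : ClosedE C) (K A : Type) [Field K] (hK : ∀ n : ℕ, C (GL (Fin n) K))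
    [Ring A] [NoZeroDivisors A] [Nontrivial A] [Algebra K A] (hLO : LO A) {deg : A → ℕ}
    (hm : ∀ a b, a ≠ 0 → b ≠ 0 → deg (a * b) = deg a + deg b)
    (ha : ∀ a b, a ≠ 0 → b ≠ 0 → a + b ≠ 0 → deg (a + b) ≤ max (deg a) (deg b))
    (hfin : ∀ n : ℕ, ∃ W : Submodule K A, FiniteDimensional K W ∧ ∀ a, deg a ≤ n → a ∈ W)
    (hres : ∀ a : A, a ≠ 0 → ∃ (B : Type) (_ : Ring B) (_ : Algebra K B) (f : A →ₐ[K] B),
      FiniteDimensional K B ∧ f a ≠ 0) : C (GL2 A) := by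
  refine ore_crit hC hLO hm ha fun n => ?_
  obtain ⟨W, hW, hWn⟩ := hfin n
  -- some homomorphism to a finite-dimensional algebra is injective on `W`
  have key : ∀ (k : ℕ) (B : Type) (_ : Ring B) (_ : Algebra K B) (f : A →ₐ[K] B),
      FiniteDimensional K B → Module.finrank K ↥(W ⊓ LinearMap.ker f.toLinearMap) ≤ k →
      ∃ (B : Type) (_ : Ring B) (_ : Algebra K B) (f : A →ₐ[K] B), FiniteDimensional K B ∧
        ∀ a ∈ W, f a = 0 → a = 0 := by
    intro k
    induction k with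
    | zero =>
      intro B _ _ f hB hk
      refine ⟨B, inferInstance, inferInstance, f, hB, fun a ha hfa => ?_⟩
      have h1 : W ⊓ LinearMap.ker f.toLinearMap = ⊥ := by
        rw [← Submodule.finrank_eq_zero (R := K)]
        omega
      have h2 : a ∈ W ⊓ LinearMap.ker f.toLinearMap := ⟨ha, hfa⟩
      rw [h1, Submodule.mem_bot] at h2
      exact h2
    | succ k ih =>
      intro B _ _ f hB hk
      by_cases h1 : W ⊓ LinearMap.ker f.toLinearMap = ⊥
      · refine ⟨B, inferInstance, inferInstance, f, hB, fun a ha hfa => ?_⟩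
        have h2 : a ∈ W ⊓ LinearMap.ker f.toLinearMap := ⟨ha, hfa⟩
        rw [h1, Submodule.mem_bot] at h2
        exact h2
      · obtain ⟨a, ha, ha0⟩ := (Submodule.ne_bot_iff _).1 h1
        obtain ⟨B', _, _, f', hB', hf'⟩ := hres a ha0
        refine ih (B × B') inferInstance inferInstance (f.prod f') inferInstance ?_
        have h2 : W ⊓ LinearMap.ker (f.prod f').toLinearMap < W ⊓ LinearMap.ker f.toLinearMap := by
          refine lt_of_le_of_ne (fun x hx => ⟨hx.1, congrArg Prod.fst hx.2⟩) fun h => ?_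
          rw [← h] at ha
          exact hf' (congrArg Prod.snd ha.2)
        have h3 := Submodule.finrank_lt_finrank_of_lt h2
        omega
  obtain ⟨B0, _, _, f0, hB0, -⟩ := hres 1 one_ne_zero
  obtain ⟨B, _, _, f, hB, hf⟩ := key _ B0 inferInstance inferInstance f0 hB0 le_rfl
  refine ⟨B, inferInstance, f.toRingHom, findim hC K hK B, fun a ha0 hdeg hfa => ?_⟩
  exact ha0 (hf a (hWn a hdeg) hfa)

end Pool.Agent.J6H6.NT
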