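import Pool.Agent.J6H6.RP.Cls
import Pool.Agent.J6H75.BT.Fg

/-!
# Subrings of polynomial rings over division rings, and linear groups of degree two
-/

set_option autoImplicit false

namespace Pool.Agent.J6H6.NT

open Pool.Agent.Y110.FJ (ClosedE)
open Pool.Agent.J6H75.BT
open Pool.Agent.J6H6.RP (exists_dvD ng ng_apply ordR ord_eqR)

variable {C : ∀ (G : Type) [Group G], Prop}

/-- The polynomial ring in the Laurent polynomial ring. -/
noncomputable def jp (E : Type) [Ring E] : Polynomial E →+* MonoidAlgebra E (Multiplicative ℤ) :=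
  Polynomial.eval₂RingHom' (MonoidAlgebra.singleOneRingHom : E →+* _)
    (MonoidAlgebra.single (Multiplicative.ofAdd 1) 1) (by
      intro a
      change _ * _ = _ * _
      change MonoidAlgebra.single 1 a * MonoidAlgebra.single _ 1 =
        MonoidAlgebra.single _ 1 * MonoidAlgebra.single 1 a
      rw [MonoidAlgebra.single_mul_single, MonoidAlgebra.single_mul_single]
      simp)

theorem jp_monomial (E : Type) [Ring E] (n : ℕ) (a : E) :
    jp E (Polynomial.monomial n a) = MonoidAlgebra.single (Multiplicative.ofAdd (n : ℤ)) a := by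
  change Polynomial.eval₂ _ _ _ = _
  rw [Polynomial.eval₂_monomial, MonoidAlgebra.single_pow]
  change MonoidAlgebra.single 1 a * _ = _
  rw [MonoidAlgebra.single_mul_single, one_mul, one_pow, mul_one, ← ofAdd_nsmul]
  simp

theorem jp_coeff (E : Type) [Ring E] (p : Polynomial E) (n : ℕ) :
    (jp E p).coeff (Multiplicative.ofAdd (n : ℤ)) = p.coeff n := by
  classical
  induction p using Polynomial.induction_on' with
  | add p q hp hq =>
    rw [map_add, MonoidAlgebra.coeff_add, Finsupp.add_apply, hp, hq, Polynomial.coeff_add]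
  | monomial m a =>
    rw [jp_monomial, MonoidAlgebra.coeff_single, Finsupp.single_apply, Polynomial.coeff_monomial]
    have h : (Multiplicative.ofAdd (m : ℤ) = Multiplicative.ofAdd (n : ℤ)) ↔ m = n := by
      rw [Multiplicative.ofAdd.injective.eq_iff]
      exact Nat.cast_inj
    by_cases hmn : m = n
    · rw [if_pos (h.2 hmn), if_pos hmn]
    · rw [if_neg (fun h1 => hmn (h.1 h1)), if_neg hmn]

theorem jp_coeff_ne (E : Type) [Ring E] (p : Polynomial E) {z : Multiplicative ℤ}
    (h : (jp E p).coeff z ≠ 0) : ∃ n : ℕ, z = Multiplicative.ofAdd (n : ℤ) ∧ p.coeff n ≠ 0 := by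
  classical
  have key : ∀ z : Multiplicative ℤ, (jp E p).coeff z ≠ 0 → ∃ n : ℕ,
      z = Multiplicative.ofAdd (n : ℤ) := by
    clear h
    intro z hz
    induction p using Polynomial.induction_on' with
    | add p q hp hq =>
      rw [map_add, MonoidAlgebra.coeff_add, Finsupp.add_apply] at hz
      by_contra h1
      apply hz
      by_cases h2 : (jp E p).coeff z = 0
      · by_cases h3 : (jp E q).coeff z = 0
        · rw [h2, h3, add_zero]
        · exact absurd (hq h3) h1
      · exact absurd (hp h2) h1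
    | monomial m a =>
      rw [jp_monomial, MonoidAlgebra.coeff_single, Finsupp.single_apply] at hz
      refine ⟨m, ?_⟩
      by_contra h1
      exact hz (if_neg (fun h2 => h1 h2.symm))
  obtain ⟨n, rfl⟩ := key z h
  exact ⟨n, rfl, by rwa [jp_coeff] at h⟩

/-- A discrete valuation which extends minus the degree. -/
theorem exists_polyDV (E : Type) [DivisionRing E] :
    ∃ (D : Type) (_ : DivisionRing D) (V : DV D) (j : Polynomial E →+* D),
      ∀ p, p ≠ 0 → j p ≠ 0 ∧ V.v (j p) = -(p.natDegree : ℤ) := by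
  obtain ⟨D, _, V, j, hj⟩ := exists_dvD E
  refine ⟨D, inferInstance, ⟨V.v, V.map_mul, V.map_add, V.t, V.t_ne, V.v_t⟩, j.comp (jp E),
    fun p hp => ?_⟩
  have h0 : ordR ng (jp E p) = -(p.natDegree : ℤ) := by
    refine ord_eqR ng ⟨Multiplicative.ofAdd (p.natDegree : ℤ), ?_, ?_⟩ ?_
    · rw [jp_coeff]
      exact Polynomial.leadingCoeff_ne_zero.2 hp
    · rw [ng_apply, toAdd_ofAdd]
    · intro z hz
      obtain ⟨n, rfl, hn⟩ := jp_coeff_ne E p hz
      rw [ng_apply, toAdd_ofAdd]
      have := Polynomial.le_natDegree_of_ne_zero hn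
      omega
  have h1 : jp E p ≠ 0 := by
    intro h
    have h2 := jp_coeff E p p.natDegree
    rw [h] at h2
    exact (Polynomial.leadingCoeff_ne_zero.2 hp) h2.symm
  have h2 : ∀ m : ℤ, j (jp E p) ∈ V.O m ↔ m ≤ -(p.natDegree : ℤ) := by
    intro m
    rw [hj, h0]
    exact ⟨fun h => h.resolve_left h1, Or.inr⟩
  have h3 : j (jp E p) ≠ 0 := by
    intro h
    have h4 : j (jp E p) ∈ V.O 1 := by
      rw [h]
      exact Or.inl rfl
    have h5 := (h2 1).1 h4
    omega
  refine ⟨h3, ?_⟩
  change V.v (j (jp E p)) = _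
  have h4 : ∀ m : ℤ, m ≤ V.v (j (jp E p)) ↔ m ≤ -(p.natDegree : ℤ) := by
    intro m
    rw [← h2]
    exact ⟨Or.inr, fun h => h.resolve_left h3⟩
  exact le_antisymm ((h4 _).1 le_rfl) ((h4 _).2 le_rfl)

end Pool.Agent.J6H6.NT
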